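import Mathlib
import Pool.Agent.Helper543.Melchior

/-! Lower bound `2 n - 4` for the number of lines spanned by `n ≥ 10` points of the real plane,
at most `n - 2` of them on a line. -/

namespace Pool.Agent.V11251.KM

open Finset Pool.Agent.Helper543.Melchior

noncomputable section

open scoped Classical

variable {S : Finset Pt}

lemma two_le_card {L : Finset Pt} (hL : L ∈ lines S) : 2 ≤ L.card := by
  obtain ⟨a, ha, b, hb, hab⟩ := exists_two hL
  exact Finset.one_lt_card.mpr ⟨a, ha, b, hb, hab⟩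

lemma inter_le_one {L L' : Finset Pt} (hL : L ∈ lines S) (hL' : L' ∈ lines S) (h : L ≠ L') :
    (L ∩ L').card ≤ 1 := by
  rw [Finset.card_le_one]
  intro a ha b hb
  rw [mem_inter] at ha hb
  by_contra hab
  exact h ((eq_lineOf hL ha.1 hb.1 hab).trans (eq_lineOf hL' ha.2 hb.2 hab).symm)

/-- pairs of points of `K` are distributed over the lines -/
lemma pairs (K : Finset Pt) (hK : K ⊆ S) :
    ∑ L ∈ lines S, ((L ∩ K).card * (L ∩ K).card - (L ∩ K).card) =
      K.card * K.card - K.card := by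
  have hmap : ∀ ab ∈ K.offDiag, lineOf S ab.1 ab.2 ∈ lines S := by
    rintro ⟨a, b⟩ hab
    rw [mem_offDiag] at hab
    exact lineOf_mem_lines (hK hab.1) (hK hab.2.1) hab.2.2
  rw [← Finset.offDiag_card, Finset.card_eq_sum_card_fiberwise hmap]
  refine Finset.sum_congr rfl fun L hL => ?_
  rw [← Finset.offDiag_card]
  congr 1
  ext ⟨a, b⟩
  simp only [mem_offDiag, mem_inter, mem_filter]
  constructor
  · rintro ⟨⟨ha, ha'⟩, ⟨hb, hb'⟩, hab⟩
    exact ⟨⟨ha', hb', hab⟩, (eq_lineOf hL ha hb hab).symm⟩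
  · rintro ⟨⟨ha', hb', hab⟩, rfl⟩
    exact ⟨⟨mem_lineOf.2 ⟨hK ha', cr_self_left _ _⟩, ha'⟩,
      ⟨mem_lineOf.2 ⟨hK hb', cr_self_right _ _⟩, hb'⟩, hab⟩

lemma pairs_all : ∑ L ∈ lines S, (L.card * L.card - L.card) = S.card * S.card - S.card := by
  rw [← pairs S (subset_refl S)]
  refine Finset.sum_congr rfl fun L hL => ?_
  rw [inter_eq_left.mpr (line_subset hL)]

/-- the counting bound from one long line -/
lemma bound_B {L0 : Finset Pt} (hL0 : L0 ∈ lines S) (k : ℕ) (hk : L0.card + k = S.card) :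
    2 * (L0.card * k) + 2 ≤ 2 * (lines S).card + (k * k - k) := by
  set K := S \ L0 with hKdef
  have hKS : K ⊆ S := sdiff_subset
  have hKc : K.card = k := by
    rw [hKdef, card_sdiff_of_subset (line_subset hL0)]; omega
  have hmap : ∀ ab ∈ L0 ×ˢ K, lineOf S ab.1 ab.2 ∈ (lines S).erase L0 := by
    rintro ⟨a, b⟩ hab
    rw [mem_product, hKdef, mem_sdiff] at hab
    obtain ⟨ha, hb, hb'⟩ := hab
    simp only at ha hb hb'
    have hne : a ≠ b := by rintro rfl; exact hb' ha
    refine mem_erase.mpr ⟨?_, lineOf_mem_lines (line_subset hL0 ha) hb hne⟩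
    intro h
    apply hb'
    rw [← h]
    exact mem_lineOf.2 ⟨hb, cr_self_right _ _⟩
  have h1 := Finset.card_eq_sum_card_fiberwise hmap
  rw [card_product, hKc] at h1
  have h2 : ∀ L ∈ (lines S).erase L0,
      2 * ((L0 ×ˢ K).filter (fun ab => lineOf S ab.1 ab.2 = L)).card ≤
        2 + ((L ∩ K).card * (L ∩ K).card - (L ∩ K).card) := by
    intro L hL
    rw [mem_erase] at hL
    have hsub : (L0 ×ˢ K).filter (fun ab => lineOf S ab.1 ab.2 = L) ⊆
        (L ∩ L0) ×ˢ (L ∩ K) := by
      rintro ⟨a, b⟩ hab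
      simp only [mem_filter, mem_product] at hab
      obtain ⟨⟨ha, hb⟩, rfl⟩ := hab
      simp only [mem_product, mem_inter]
      exact ⟨⟨mem_lineOf.2 ⟨line_subset hL0 ha, cr_self_left _ _⟩, ha⟩,
        ⟨mem_lineOf.2 ⟨hKS hb, cr_self_right _ _⟩, hb⟩⟩
    have h3 := card_le_card hsub
    rw [card_product] at h3
    have h4 := inter_le_one hL.2 hL0 hL.1
    have h5 : ((L0 ×ˢ K).filter (fun ab => lineOf S ab.1 ab.2 = L)).card ≤ (L ∩ K).card := by
      refine h3.trans ?_
      calc _ ≤ 1 * (L ∩ K).card := Nat.mul_le_mul_right _ h4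
        _ = _ := one_mul _
    generalize (L ∩ K).card = j at h5 ⊢
    generalize ((L0 ×ˢ K).filter (fun ab => lineOf S ab.1 ab.2 = L)).card = i at h5 ⊢
    rcases j with _ | _ | _ | j
    · omega
    · omega
    · omega
    · have : (j + 1 + 1 + 1) * (j + 1 + 1 + 1) - (j + 1 + 1 + 1) =
          (j + 3) * (j + 2) := by
        rw [← Nat.mul_sub_one]; rfl
      rw [this]
      nlinarith
  have h3 : 2 * (L0.card * k) ≤ ∑ L ∈ (lines S).erase L0,
      (2 + ((L ∩ K).card * (L ∩ K).card - (L ∩ K).card)) := by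
    rw [h1, mul_sum]
    exact sum_le_sum h2
  rw [sum_add_distrib, sum_const, smul_eq_mul, card_erase_of_mem hL0] at h3
  have h4 : ∑ L ∈ (lines S).erase L0, ((L ∩ K).card * (L ∩ K).card - (L ∩ K).card) ≤
      k * k - k := by
    rw [← hKc, ← pairs K hKS]
    exact sum_le_sum_of_subset (erase_subset _ _)
  have h5 : 1 ≤ (lines S).card := card_pos.mpr ⟨L0, hL0⟩
  omega

/-- two distinct lines share at most one point -/
lemma bound_C (H : Finset (Finset Pt)) (hH : H ⊆ lines S) :
    ∑ x ∈ S, ((H.filter (fun L => x ∈ L)).card * (H.filter (fun L => x ∈ L)).card -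
      (H.filter (fun L => x ∈ L)).card) ≤ H.card * H.card - H.card := by
  have e : ∀ x ∈ S, ((H.filter (fun L => x ∈ L)).card * (H.filter (fun L => x ∈ L)).card -
      (H.filter (fun L => x ∈ L)).card) =
      ((H.offDiag).filter (fun LL => x ∈ LL.1 ∩ LL.2)).card := by
    intro x _
    rw [← Finset.offDiag_card]
    congr 1
    ext ⟨L, L'⟩
    simp only [mem_offDiag, mem_filter, mem_inter]
    tauto
  rw [sum_congr rfl e, ← Finset.offDiag_card]
  have := Finset.sum_card_bipartiteAbove_eq_sum_card_bipartiteBelow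
    (s := S) (t := H.offDiag) (fun x LL => x ∈ LL.1 ∩ LL.2)
  unfold Finset.bipartiteAbove Finset.bipartiteBelow at this
  rw [this, card_eq_sum_ones]
  refine sum_le_sum fun LL hLL => ?_
  rw [mem_offDiag] at hLL
  refine le_trans (card_le_card ?_) (inter_le_one (hH hLL.1) (hH hLL.2.1) hLL.2.2)
  intro x hx
  exact (mem_filter.mp hx).2

lemma incid (H : Finset (Finset Pt)) (hH : H ⊆ lines S) :
    ∑ x ∈ S, (H.filter (fun L => x ∈ L)).card = ∑ L ∈ H, L.card := by
  have := Finset.sum_card_bipartiteAbove_eq_sum_card_bipartiteBelow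
    (s := S) (t := H) (fun x L => x ∈ L)
  unfold Finset.bipartiteAbove Finset.bipartiteBelow at this
  rw [this]
  refine sum_congr rfl fun L hL => ?_
  congr 1
  ext x
  simp only [mem_filter]
  exact ⟨fun h => h.2, fun h => ⟨line_subset (hH hL) h, h⟩⟩

lemma bound_C1 (H : Finset (Finset Pt)) (hH : H ⊆ lines S) :
    2 * ∑ L ∈ H, L.card ≤ 2 * S.card + (H.card * H.card - H.card) := by
  rw [← incid H hH, mul_sum]
  have h : ∀ x ∈ S, 2 * (H.filter (fun L => x ∈ L)).card ≤ 2 +
      ((H.filter (fun L => x ∈ L)).card * (H.filter (fun L => x ∈ L)).card -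
      (H.filter (fun L => x ∈ L)).card) := by
    intro x _
    generalize (H.filter (fun L => x ∈ L)).card = j
    rcases j with _ | _ | j
    · omega
    · omega
    · have : (j + 1 + 1) * (j + 1 + 1) - (j + 1 + 1) = (j + 2) * (j + 1) := by
        rw [← Nat.mul_sub_one]; rfl
      rw [this]; nlinarith
  calc _ ≤ ∑ x ∈ S, (2 + ((H.filter (fun L => x ∈ L)).card *
        (H.filter (fun L => x ∈ L)).card - (H.filter (fun L => x ∈ L)).card)) := sum_le_sum h
    _ ≤ _ := by
      rw [sum_add_distrib, sum_const, smul_eq_mul]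
      have := bound_C H hH
      omega

lemma bound_C2 (H : Finset (Finset Pt)) (hH : H ⊆ lines S) :
    4 * ∑ L ∈ H, L.card ≤ 6 * S.card + (H.card * H.card - H.card) := by
  rw [← incid H hH, mul_sum]
  have h : ∀ x ∈ S, 4 * (H.filter (fun L => x ∈ L)).card ≤ 6 +
      ((H.filter (fun L => x ∈ L)).card * (H.filter (fun L => x ∈ L)).card -
      (H.filter (fun L => x ∈ L)).card) := by
    intro x _
    generalize (H.filter (fun L => x ∈ L)).card = j
    rcases j with _ | _ | _ | j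
    · omega
    · omega
    · omega
    · have : (j + 1 + 1 + 1) * (j + 1 + 1 + 1) - (j + 1 + 1 + 1) = (j + 3) * (j + 2) := by
        rw [← Nat.mul_sub_one]; rfl
      rw [this]; nlinarith
  calc _ ≤ ∑ x ∈ S, (6 + ((H.filter (fun L => x ∈ L)).card *
        (H.filter (fun L => x ∈ L)).card - (H.filter (fun L => x ∈ L)).card)) := sum_le_sum h
    _ ≤ _ := by
      rw [sum_add_distrib, sum_const, smul_eq_mul]
      have := bound_C H hH
      omega

/-- Melchior plus convexity -/
lemma bound_A {m : ℕ} (hm : ∀ L ∈ lines S, L.card ≤ m)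
    (hS : ∃ a ∈ S, ∃ b ∈ S, ∃ c ∈ S, cr a b c ≠ 0) :
    S.card * S.card - S.card + 3 * (m + 1) ≤ (m + 3) * (lines S).card := by
  have h1 := melchior hS
  have h2 := pairs_all (S := S)
  have h3 : ∀ L ∈ lines S, (L.card * L.card - L.card) + 2 * m ≤ (m + 1) * L.card := by
    intro L hL
    have ha := two_le_card hL
    have hb := hm L hL
    obtain ⟨i, hi⟩ := Nat.exists_eq_add_of_le ha
    obtain ⟨j, hj⟩ := Nat.exists_eq_add_of_le hb
    have : L.card * L.card - L.card = L.card * (1 + i) := by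
      rw [← Nat.mul_sub_one]; congr 1; omega
    rw [this]
    subst hj
    rw [hi]
    nlinarith
  have h4 := sum_le_sum h3
  rw [sum_add_distrib, h2, sum_const, smul_eq_mul, ← mul_sum] at h4
  nlinarith

/-- number of lines with exactly `r` points -/
def tt (S : Finset Pt) (r : ℕ) : ℕ := ((lines S).filter (fun L => L.card = r)).card

lemma sum_f {m : ℕ} (hm : ∀ L ∈ lines S, L.card ≤ m) (f : ℕ → ℕ) :
    ∑ L ∈ lines S, f L.card = ∑ r ∈ Icc 2 m, tt S r * f r := by
  have hmap : ∀ L ∈ lines S, L.card ∈ Icc 2 m := fun L hL =>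
    mem_Icc.mpr ⟨two_le_card hL, hm L hL⟩
  rw [← sum_fiberwise_of_maps_to hmap]
  refine sum_congr rfl fun r _ => ?_
  rw [tt, card_eq_sum_ones, sum_mul]
  refine sum_congr rfl fun L hL => ?_
  rw [(mem_filter.mp hL).2, one_mul]

lemma card_H {m : ℕ} (hm : ∀ L ∈ lines S, L.card ≤ m) :
    ((lines S).filter (fun L => 4 ≤ L.card)).card =
      ∑ r ∈ Icc 2 m, tt S r * (if 4 ≤ r then 1 else 0) := by
  rw [← sum_f hm (fun r => if 4 ≤ r then 1 else 0), card_filter]

lemma sum_H {m : ℕ} (hm : ∀ L ∈ lines S, L.card ≤ m) :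
    ∑ L ∈ (lines S).filter (fun L => 4 ≤ L.card), L.card =
      ∑ r ∈ Icc 2 m, tt S r * (if 4 ≤ r then r else 0) := by
  rw [← sum_f hm (fun r => if 4 ≤ r then r else 0), sum_filter]

/-- Affine dual form of the main theorem. -/
theorem affine_main (hn : 10 ≤ S.card) (hS : ∃ a ∈ S, ∃ b ∈ S, ∃ c ∈ S, cr a b c ≠ 0)
    (hmax : ∀ L ∈ lines S, L.card + 2 ≤ S.card) : 2 * S.card ≤ (lines S).card + 4 := by
  have hne : (lines S).Nonempty := by
    obtain ⟨a, ha, b, hb, c, hc, h⟩ := hS
    have hab : a ≠ b := by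
      rintro rfl
      apply h; simp [cr]
    exact ⟨_, lineOf_mem_lines ha hb hab⟩
  obtain ⟨L0, hL0, hmx⟩ := (lines S).exists_max_image (fun L => L.card) hne
  by_contra hcon
  rw [not_le] at hcon
  obtain ⟨k, hk⟩ := Nat.exists_eq_add_of_le (hmax L0 hL0)
  have hB := bound_B hL0 (k + 2) (by omega)
  have hA := bound_A hmx hS
  have hC1 := bound_C1 ((lines S).filter (fun L => 4 ≤ L.card)) (filter_subset _ _)
  have hC2 := bound_C2 ((lines S).filter (fun L => 4 ≤ L.card)) (filter_subset _ _)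
  have hH1 := card_H hmx
  have hH2 := sum_H hmx
  rw [hH1, hH2] at hC1 hC2
  have hM := melchior hS
  have hP := pairs_all (S := S)
  have s1 := sum_f hmx (fun r => r)
  have s2 := sum_f hmx (fun r => r * r - r)
  have s3 := sum_f hmx (fun _ => 1)
  simp only [sum_const, smul_eq_mul, mul_one] at s3
  rw [s1] at hM
  rw [s2] at hP
  generalize hmdef : L0.card = m at *
  generalize hFdef : (lines S).card = F at *
  have hn' : S.card = m + (k + 2) := by omega
  rw [hn'] at hA hP hcon hn hC1 hC2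
  clear hH1 hH2 s1 s2 hmx hmax hL0 hne
  have e1 : (k + 2) * (k + 2) - (k + 2) = (k + 2) * (k + 1) := by
    rw [← Nat.mul_sub_one]; rfl
  have e2 : (m + (k + 2)) * (m + (k + 2)) - (m + (k + 2)) =
      (m + (k + 2)) * (m + (k + 1)) := by
    rw [← Nat.mul_sub_one]; rfl
  rw [e1] at hB
  rw [e2] at hA
  have h1 : 2 * m ≤ k + 6 := by
    by_contra hh
    rw [not_le] at hh
    nlinarith
  have h2 : k ≤ 6 := by
    by_contra hh
    rw [not_le] at hh
    have h3 : (m + (k + 2)) * (m + (k + 1)) + 3 * (m + 1) + (m + 3) * 5 ≤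
        (m + 3) * (2 * (m + (k + 2))) := by
      calc _ ≤ (m + 3) * F + (m + 3) * 5 := by omega
        _ = (m + 3) * (F + 5) := by ring
        _ ≤ _ := Nat.mul_le_mul_left _ (by omega)
    nlinarith
  have hm6 : m ≤ 6 := by omega
  have hA' : (m + (k + 2)) * (m + (k + 1)) + 3 * (m + 1) ≤ (m + 3) * F := hA
  have hI4 : (Icc 2 4 : Finset ℕ) = {2, 3, 4} := by decide
  have hI5 : (Icc 2 5 : Finset ℕ) = {2, 3, 4, 5} := by decide
  have hI6 : (Icc 2 6 : Finset ℕ) = {2, 3, 4, 5, 6} := by decide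
  generalize tt S = t at *
  have hcases : (m = 4 ∧ k = 4) ∨ (m = 5 ∧ k = 4) ∨ (m = 5 ∧ k = 5) ∨ (m = 6 ∧ k = 6) := by
    clear hM hP hC1 hC2 s3
    interval_cases k <;> interval_cases m <;> omega
  rcases hcases with ⟨rfl, rfl⟩ | ⟨rfl, rfl⟩ | ⟨rfl, rfl⟩ | ⟨rfl, rfl⟩
  · rw [hI4] at s3 hM hP hC1 hC2
    simp at s3 hM hP hC1 hC2
    generalize t 2 = t2 at *
    generalize t 3 = t3 at *
    generalize t 4 = t4 at *
    have h4 : t4 = 6 := by omega
    subst h4
    omega
  · rw [hI5] at s3 hM hP hC1 hC2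
    simp at s3 hM hP hC1 hC2
    generalize t 2 = t2 at *
    generalize t 3 = t3 at *
    generalize t 4 = t4 at *
    generalize t 5 = t5 at *
    have h4 : (t4 = 0 ∧ t5 = 4) ∨ (t4 = 1 ∧ t5 = 3) ∨ (t4 = 4 ∧ t5 = 2) := by
      clear hC1 hC2
      have b5 : t5 ≤ 5 := by omega
      have b4 : t4 ≤ 9 := by omega
      interval_cases t5 <;> interval_cases t4 <;> omega
    rcases h4 with ⟨rfl, rfl⟩ | ⟨rfl, rfl⟩ | ⟨rfl, rfl⟩ <;> omega
  · rw [hI5] at s3 hM hP hC1 hC2
    simp at s3 hM hP hC1 hC2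
    generalize t 2 = t2 at *
    generalize t 3 = t3 at *
    generalize t 4 = t4 at *
    generalize t 5 = t5 at *
    have h4 : t4 = 0 ∧ t5 = 5 := by
      clear hC1 hC2
      have b5 : t5 ≤ 6 := by omega
      have b4 : t4 ≤ 11 := by omega
      interval_cases t5 <;> interval_cases t4 <;> omega
    obtain ⟨rfl, rfl⟩ := h4
    omega
  · rw [hI6] at s3 hM hP hC1 hC2
    simp at s3 hM hP hC1 hC2
    generalize t 2 = t2 at *
    generalize t 3 = t3 at *
    generalize t 4 = t4 at *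
    generalize t 5 = t5 at *
    generalize t 6 = t6 at *
    clear hC1 hC2
    have b6 : t6 ≤ 6 := by omega
    have b5 : t5 ≤ 9 := by omega
    interval_cases t6 <;> interval_cases t5 <;> omega

end

end Pool.Agent.V11251.KM
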